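import Pool.Agent.H75.FL.Turn
import Pool.Agent.H95.Poly.Gen

/-!
Sum of the turning angles, number of convex vertices, signs of the cross products of the edges of a
pseudo-triangle.
-/

set_option autoImplicit false

namespace Pool.Agent.H75.FL

open Set Filter Topology Pool.Agent.H54.Fl Pool.Agent.H75.PolyJ Pool.Agent.H95.Poly
open scoped Real

lemma ang_neg {a b p : ℝ × ℝ} (ha : p ≠ a) (h : orient a b p < 0) : ang a b p < 0 := by
  unfold ang
  rw [Complex.arg_neg_iff, quo_im]
  exact div_neg_of_neg_of_pos h (normSq_pos ha.symm)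

/-- a counterclockwise triangle is positively oriented -/
theorem orient_pos_of_ccw3 {v : ℕ → ℝ × ℝ} (h : IsSimplePolygon 3 v) (hc : CCW 3 v) :
    0 < orient (v 0) (v 1) (v 2) := by
  have hg := h.genuine 0 (by norm_num)
  norm_num at hg
  by_contra hcon
  have hneg : orient (v 0) (v 1) (v 2) < 0 := lt_of_le_of_ne (not_lt.1 hcon) hg
  let p : ℝ × ℝ := (1 / 3 : ℝ) • (v 0 + v 1 + v 2)
  have e : ∀ a b c : ℝ × ℝ, orient a b ((1 / 3 : ℝ) • (a + b + c)) = orient a b c / 3 := by
    intro a b c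
    unfold orient
    simp only [Prod.smul_fst, Prod.smul_snd, Prod.fst_add, Prod.snd_add, smul_eq_mul]
    ring
  have e0 : orient (v 0) (v 1) p < 0 := by
    have := e (v 0) (v 1) (v 2)
    show orient (v 0) (v 1) ((1 / 3 : ℝ) • (v 0 + v 1 + v 2)) < 0
    rw [this]; linarith
  have e1 : orient (v 1) (v 2) p < 0 := by
    have := e (v 1) (v 2) (v 0)
    have h2 : v 0 + v 1 + v 2 = v 1 + v 2 + v 0 := by abel
    show orient (v 1) (v 2) ((1 / 3 : ℝ) • (v 0 + v 1 + v 2)) < 0
    rw [h2, this, orient_cyc]; linarith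
  have e2 : orient (v 2) (v 0) p < 0 := by
    have := e (v 2) (v 0) (v 1)
    have h2 : v 0 + v 1 + v 2 = v 2 + v 0 + v 1 := by abel
    show orient (v 2) (v 0) ((1 / 3 : ℝ) • (v 0 + v 1 + v 2)) < 0
    rw [h2, this, orient_cyc, orient_cyc]; linarith
  have hpc : p ∉ curve 3 v := by
    rintro ⟨i, hi, hp⟩
    have := orient_of_mem hp
    interval_cases i
    · norm_num at this; linarith
    · norm_num at this; linarith
    · norm_num at this; linarith
  have hne : ∀ {a b : ℝ × ℝ}, orient a b p < 0 → p ≠ a := by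
    intro a b h1 h2
    rw [h2, orient_self_left] at h1
    exact lt_irrefl _ h1
  have hs : angSum 3 v p < 0 := by
    unfold angSum
    rw [Finset.sum_range_succ, Finset.sum_range_succ, Finset.sum_range_succ, Finset.sum_range_zero]
    norm_num
    have a0 := ang_neg (hne e0) e0
    have a1 := ang_neg (hne e1) e1
    have a2 := ang_neg (hne e2) e2
    linarith
  have hw := angSum_eq hpc
  have hpi := Real.pi_pos
  rcases wind_of_ccw h hc hpc with h1 | h1
  · rw [h1] at hw; push_cast at hw; linarith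
  · rw [h1] at hw; push_cast at hw; linarith

lemma gen_mono {m n : ℕ} {v : ℕ → ℝ × ℝ} (hm : m ≤ n) (h : Gen n v) : Gen m v :=
  fun i hi j hj k hk => h i (by omega) j (by omega) k (by omega)

lemma add_mod_inj {n s i j : ℕ} (hi : i < n) (hj : j < n) (h : (s + i) % n = (s + j) % n) :
    i = j := by
  have h1 : (s + i) ≡ (s + j) [MOD n] := h
  have h2 : i ≡ j [MOD n] := Nat.ModEq.add_left_cancel' s h1
  have h3 : i % n = j % n := h2
  rwa [Nat.mod_eq_of_lt hi, Nat.mod_eq_of_lt hj] at h3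

lemma gen_sh {n : ℕ} {v : ℕ → ℝ × ℝ} (h : Gen n v) (s : ℕ) : Gen n (sh n v s) := by
  intro i hi j hj k hk hij hik hjk
  have hn : 0 < n := by omega
  exact h _ (Nat.mod_lt _ hn) _ (Nat.mod_lt _ hn) _ (Nat.mod_lt _ hn)
    (fun he => hij (add_mod_inj hi hj he)) (fun he => hik (add_mod_inj hi hk he))
    (fun he => hjk (add_mod_inj hj hk he))

/-- **Sum of the turning angles.** -/
theorem turn_sum
    (hd : ∀ (n : ℕ) (v : ℕ → ℝ × ℝ), IsSimplePolygon n v → CCW n v → Gen n v → 4 ≤ n →
      ∃ s < n, ∃ j, Split n (sh n v s) j) :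
    ∀ (n : ℕ) (v : ℕ → ℝ × ℝ), IsSimplePolygon n v → CCW n v → Gen n v →
      ∑ i ∈ Finset.range n, turn n v i = 2 * π := by
  intro n
  induction n using Nat.strong_induction_on with
  | _ n ih =>
  intro v h hc hg
  have hn := h.three_le
  rcases Nat.lt_or_ge n 4 with h4 | h4
  · have h3 : n = 3 := by omega
    subst h3
    have ho := orient_pos_of_ccw3 h hc
    have := tau_triangle ho
    rw [Finset.sum_range_succ, Finset.sum_range_succ, Finset.sum_range_succ,
      Finset.sum_range_zero]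
    have c0 : pv 3 0 = 2 := rfl
    have c1 : nx 3 0 = 1 := rfl
    have c2 : pv 3 1 = 0 := rfl
    have c3 : nx 3 1 = 2 := rfl
    have c4 : pv 3 2 = 1 := rfl
    have c5 : nx 3 2 = 0 := rfl
    unfold turn
    rw [c0, c1, c2, c3, c4, c5]
    linarith
  · obtain ⟨s, hs, j, hj⟩ := hd n v h hc hg h4
    have h1 := simple_sh h s
    have h2 := ccw_sh h s hc
    rw [← turn_sh v s]
    have h5 := turn_split h1 h2 hj
    have hj2 := hj.two_le
    have hjn := hj.le_n
    have hc12 := hj.ccw h1 h2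
    have g0 := gen_sh hg s
    have g1 : Gen (j + 1) (sh n v s) := gen_mono (by omega) g0
    have g2 : Gen (n - j + 1) (sh n (sh n v s) j) := gen_mono (by omega) (gen_sh g0 j)
    rw [ih (j + 1) (by omega) _ (hj.simple1 h1) hc12.1 g1,
      ih (n - j + 1) (by omega) _ (hj.simple2 h1) hc12.2 g2] at h5
    linarith

/-- convex vertex -/
def Cv (n : ℕ) (v : ℕ → ℝ × ℝ) (i : ℕ) : Prop := 0 < orient (v (pv n i)) (v i) (v (nx n i))

open Classical in
/-- number of convex vertices in a set of indices -/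
noncomputable def ncv (n : ℕ) (v : ℕ → ℝ × ℝ) (A : Finset ℕ) : ℕ := (A.filter fun i => Cv n v i).card

lemma sum_turn_lt {n : ℕ} {v : ℕ → ℝ × ℝ} (h : IsSimplePolygon n v) {A : Finset ℕ}
    (hA : ∀ i ∈ A, i < n) (hne : A.Nonempty) : ∑ i ∈ A, turn n v i < π * ncv n v A := by
  classical
  have h1 : (π * ncv n v A : ℝ) = ∑ i ∈ A, if Cv n v i then π else 0 := by
    unfold ncv
    rw [← Finset.sum_filter, Finset.sum_const, nsmul_eq_mul, mul_comm]
  rw [h1]
  apply Finset.sum_lt_sum_of_nonempty hne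
  intro i hi
  have hg := gen' h (hA i hi)
  unfold turn
  split_ifs with hcv
  · exact tau_lt_pi hg
  · exact (tau_neg_iff hg).2 (lt_of_le_of_ne (not_lt.1 hcv) hg)

/-- a simple polygon has at least three convex vertices -/
theorem three_le_ncv {n : ℕ} {v : ℕ → ℝ × ℝ} (h : IsSimplePolygon n v)
    (hs : ∑ i ∈ Finset.range n, turn n v i = 2 * π) : 3 ≤ ncv n v (Finset.range n) := by
  have h1 := sum_turn_lt h (A := Finset.range n) (fun i hi => Finset.mem_range.1 hi)
    ⟨0, Finset.mem_range.2 (pos h)⟩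
  rw [hs] at h1
  have hpi := Real.pi_pos
  by_contra hcon
  have h2 : ((ncv n v (Finset.range n) : ℕ) : ℝ) ≤ 2 := by
    have : ncv n v (Finset.range n) ≤ 2 := by omega
    exact_mod_cast this
  nlinarith

/-- cross product -/
def cr (a b : ℝ × ℝ) : ℝ := a.1 * b.2 - a.2 * b.1

/-- the edge vector -/
def ev' (n : ℕ) (v : ℕ → ℝ × ℝ) (i : ℕ) : ℝ × ℝ := v (nx n i) - v i

lemma exp_edge {n : ℕ} {v : ℕ → ℝ × ℝ} (h : IsSimplePolygon n v) {k l : ℕ} (hkl : k ≤ l)
    (hl : l < n) : ∃ r : ℝ, 0 < r ∧ (cx (v (nx n l)) - cx (v l)) =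
      r * Complex.exp ((∑ i ∈ Finset.Ioc k l, turn n v i : ℝ) * Complex.I) *
        (cx (v (nx n k)) - cx (v k)) := by
  induction l, hkl using Nat.le_induction with
  | base => exact ⟨1, one_pos, by simp⟩
  | succ l hkl ih =>
    obtain ⟨r, hr, e⟩ := ih (by omega)
    have hl' : nx n l = l + 1 := by rcases nx_cases (show l < n by omega) with h | h <;> omega
    have hp : pv n (l + 1) = l := by rcases pv_cases hl with h | h <;> omega
    have hg := gen' h hl
    rw [hp] at hg
    obtain ⟨r', hr', e'⟩ := exp_tau (ne_left hg) (ne_right hg)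
    refine ⟨r' * r, mul_pos hr' hr, ?_⟩
    rw [e', ← Finset.insert_Ioc_right_eq_Ioc_add_one hkl, Finset.sum_insert (by simp)]
    have e2 : turn n v (l + 1) = tau (v l) (v (l + 1)) (v (nx n (l + 1))) := by
      unfold turn; rw [hp]
    rw [hl'] at e
    rw [e, e2]
    push_cast
    rw [add_mul, Complex.exp_add]
    ring

lemma cr_eq {n : ℕ} {v : ℕ → ℝ × ℝ} (h : IsSimplePolygon n v) {k l : ℕ} (hkl : k ≤ l)
    (hl : l < n) : ∃ r : ℝ, 0 < r ∧
      cr (ev' n v k) (ev' n v l) = r * Real.sin (∑ i ∈ Finset.Ioc k l, turn n v i) := by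
  obtain ⟨r, hr, e⟩ := exp_edge h hkl hl
  have hne := normSq_pos (edge_nondeg h (show k < n by omega)).symm
  refine ⟨r * Complex.normSq (cx (v (nx n k)) - cx (v k)), mul_pos hr hne, ?_⟩
  set S := ∑ i ∈ Finset.Ioc k l, turn n v i with hS
  have hre := congrArg Complex.re e
  have him := congrArg Complex.im e
  rw [mul_assoc, Complex.re_ofReal_mul, Complex.mul_re, Complex.exp_ofReal_mul_I_re,
    Complex.exp_ofReal_mul_I_im, cx_sub_re, cx_sub_re, cx_sub_im] at hre
  rw [mul_assoc, Complex.im_ofReal_mul, Complex.mul_im, Complex.exp_ofReal_mul_I_re,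
    Complex.exp_ofReal_mul_I_im, cx_sub_re, cx_sub_im, cx_sub_im] at him
  unfold cr ev'
  rw [Complex.normSq_apply, cx_sub_re, cx_sub_im]
  simp only [Prod.fst_sub, Prod.snd_sub]
  rw [hre, him]
  ring

/-- the turning between two edges, when there are exactly three convex vertices -/
lemma sum_Ioc_bounds {n : ℕ} {v : ℕ → ℝ × ℝ} (h : IsSimplePolygon n v)
    (hs : ∑ i ∈ Finset.range n, turn n v i = 2 * π) (h3 : ncv n v (Finset.range n) = 3)
    {k l : ℕ} (hkl : k < l) (hl : l < n) :
    π * (ncv n v (Finset.Ioc k l) - 1) < ∑ i ∈ Finset.Ioc k l, turn n v i ∧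
      ∑ i ∈ Finset.Ioc k l, turn n v i < π * ncv n v (Finset.Ioc k l) := by
  classical
  have hsub : Finset.Ioc k l ⊆ Finset.range n := by
    intro i hi
    rw [Finset.mem_Ioc] at hi
    rw [Finset.mem_range]; omega
  have hA := sum_turn_lt h (A := Finset.Ioc k l) (fun i hi => Finset.mem_range.1 (hsub hi))
    ⟨l, Finset.mem_Ioc.2 ⟨hkl, le_rfl⟩⟩
  have hB := sum_turn_lt h (A := Finset.range n \ Finset.Ioc k l)
    (fun i hi => Finset.mem_range.1 (Finset.mem_sdiff.1 hi).1)
    ⟨0, by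
      rw [Finset.mem_sdiff, Finset.mem_range, Finset.mem_Ioc]
      exact ⟨by omega, by omega⟩⟩
  have hsum := Finset.sum_sdiff hsub (f := fun i => turn n v i)
  have hcard : ncv n v (Finset.range n \ Finset.Ioc k l) + ncv n v (Finset.Ioc k l) = 3 := by
    rw [← h3]
    unfold ncv
    rw [← Finset.card_union_of_disjoint]
    · rw [← Finset.filter_union, Finset.sdiff_union_of_subset hsub]
    · exact Finset.disjoint_filter_filter Finset.sdiff_disjoint
  have hcard' : (ncv n v (Finset.range n \ Finset.Ioc k l) : ℝ) = 3 - ncv n v (Finset.Ioc k l) := by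
    have : ((ncv n v (Finset.range n \ Finset.Ioc k l) + ncv n v (Finset.Ioc k l) : ℕ) : ℝ) = 3 := by
      rw [hcard]; norm_num
    push_cast at this
    linarith
  rw [hcard'] at hB
  refine ⟨?_, hA⟩
  rw [hs] at hsum
  have hpi := Real.pi_pos
  nlinarith

section pseudo

variable {n : ℕ} {v : ℕ → ℝ × ℝ} {b c : ℕ} (h : IsSimplePolygon n v)
  (hs : ∑ i ∈ Finset.range n, turn n v i = 2 * π) (hb : 0 < b) (hbc : b < c) (hcn : c < n)
  (hcv : ∀ i < n, Cv n v i ↔ i = 0 ∨ i = b ∨ i = c)
include hcv hb hbc hcn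

omit hb hbc hcn in
lemma ncv_pseudo (A : Finset ℕ) (hA : ∀ i ∈ A, i < n) :
    ncv n v A = (A ∩ {0, b, c}).card := by
  classical
  unfold ncv
  congr 1
  ext i
  rw [Finset.mem_filter, Finset.mem_inter]
  simp only [Finset.mem_insert, Finset.mem_singleton]
  constructor
  · rintro ⟨h1, h2⟩
    exact ⟨h1, (hcv i (hA i h1)).1 h2⟩
  · rintro ⟨h1, h2⟩
    exact ⟨h1, (hcv i (hA i h1)).2 h2⟩

lemma ncv_all : ncv n v (Finset.range n) = 3 := by
  classical
  rw [ncv_pseudo hcv _ (fun i hi => Finset.mem_range.1 hi)]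
  have : Finset.range n ∩ {0, b, c} = {0, b, c} := by
    apply Finset.inter_eq_right.2
    intro i hi
    simp only [Finset.mem_insert, Finset.mem_singleton] at hi
    rw [Finset.mem_range]; omega
  rw [this, Finset.card_insert_of_notMem, Finset.card_insert_of_notMem, Finset.card_singleton]
  · simp only [Finset.mem_singleton]; omega
  · simp only [Finset.mem_insert, Finset.mem_singleton]; omega

include h hs

/-- edges of one chain: right turns -/
theorem cr_same {k l : ℕ} (hkl : k < l) (hl : l < n)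
    (hk : l < b ∨ (b ≤ k ∧ l < c) ∨ c ≤ k) : cr (ev' n v k) (ev' n v l) < 0 := by
  classical
  obtain ⟨r, hr, e⟩ := cr_eq h hkl.le hl
  have h3 := ncv_all hb hbc hcn hcv
  obtain ⟨b1, b2⟩ := sum_Ioc_bounds h hs h3 hkl hl
  have h0 : ncv n v (Finset.Ioc k l) = 0 := by
    rw [ncv_pseudo hcv _ (fun i hi => by rw [Finset.mem_Ioc] at hi; omega)]
    rw [Finset.card_eq_zero, Finset.eq_empty_iff_forall_notMem]
    intro i hi
    simp only [Finset.mem_inter, Finset.mem_Ioc, Finset.mem_insert, Finset.mem_singleton] at hi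
    omega
  rw [h0] at b1 b2
  push_cast at b1 b2
  have := Real.sin_neg_of_neg_of_neg_pi_lt (x := ∑ i ∈ Finset.Ioc k l, turn n v i)
    (by linarith) (by linarith)
  rw [e]
  exact mul_neg_of_pos_of_neg hr this

/-- from one chain to the next chain: left turns -/
theorem cr_next {k l : ℕ} (hl : l < n)
    (hk : (k < b ∧ b ≤ l ∧ l < c) ∨ (b ≤ k ∧ k < c ∧ c ≤ l)) :
    0 < cr (ev' n v k) (ev' n v l) := by
  classical
  have hkl : k < l := by omega
  obtain ⟨r, hr, e⟩ := cr_eq h hkl.le hl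
  have h3 := ncv_all hb hbc hcn hcv
  obtain ⟨b1, b2⟩ := sum_Ioc_bounds h hs h3 hkl hl
  have h0 : ncv n v (Finset.Ioc k l) = 1 := by
    rw [ncv_pseudo hcv _ (fun i hi => by rw [Finset.mem_Ioc] at hi; omega)]
    rw [Finset.card_eq_one]
    rcases hk with hk | hk
    · refine ⟨b, ?_⟩
      ext i
      simp only [Finset.mem_inter, Finset.mem_Ioc, Finset.mem_insert, Finset.mem_singleton]
      omega
    · refine ⟨c, ?_⟩
      ext i
      simp only [Finset.mem_inter, Finset.mem_Ioc, Finset.mem_insert, Finset.mem_singleton]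
      omega
  rw [h0] at b1 b2
  push_cast at b1 b2
  have := Real.sin_pos_of_pos_of_lt_pi (x := ∑ i ∈ Finset.Ioc k l, turn n v i)
    (by linarith) (by linarith)
  rw [e]
  exact mul_pos hr this

/-- from the third chain to the first chain -/
theorem cr_last {k l : ℕ} (hl : l < n) (hk : k < b) (hlc : c ≤ l) :
    0 < cr (ev' n v l) (ev' n v k) := by
  classical
  have hkl : k < l := by omega
  obtain ⟨r, hr, e⟩ := cr_eq h hkl.le hl
  have h3 := ncv_all hb hbc hcn hcv
  obtain ⟨b1, b2⟩ := sum_Ioc_bounds h hs h3 hkl hl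
  have h0 : ncv n v (Finset.Ioc k l) = 2 := by
    rw [ncv_pseudo hcv _ (fun i hi => by rw [Finset.mem_Ioc] at hi; omega)]
    rw [Finset.card_eq_two]
    refine ⟨b, c, by omega, ?_⟩
    ext i
    simp only [Finset.mem_inter, Finset.mem_Ioc, Finset.mem_insert, Finset.mem_singleton]
    omega
  rw [h0] at b1 b2
  push_cast at b1 b2
  have h5 := Real.sin_neg_of_neg_of_neg_pi_lt (x := ∑ i ∈ Finset.Ioc k l, turn n v i - 2 * π)
    (by linarith) (by linarith)
  rw [Real.sin_sub_two_pi] at h5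
  have h6 : cr (ev' n v l) (ev' n v k) = - cr (ev' n v k) (ev' n v l) := by
    unfold cr; ring
  rw [h6, e]
  have := mul_neg_of_pos_of_neg hr h5
  linarith

end pseudo

end Pool.Agent.H75.FL
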