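import Pool.Agent.H75.PolyJ.Split

/-!
Turning angles of a simple polygon: their sum is `2 π`.
-/

set_option autoImplicit false

namespace Pool.Agent.H75.FL

open Set Filter Topology Pool.Agent.H54.Fl Pool.Agent.H75.PolyJ
open scoped Real

/-- the turning angle at `x` of the path `u → x → w` -/
noncomputable def tau (u x w : ℝ × ℝ) : ℝ := ((cx w - cx x) / (cx x - cx u)).arg

lemma tau_im (u x w : ℝ × ℝ) :
    ((cx w - cx x) / (cx x - cx u)).im = orient u x w / Complex.normSq (cx x - cx u) := by
  rw [Complex.div_im, cx_sub_re, cx_sub_im, cx_sub_re, cx_sub_im]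
  unfold orient
  ring

lemma ne_left {u x w : ℝ × ℝ} (h : orient u x w ≠ 0) : x ≠ u := by
  rintro rfl; exact h (orient_degen _ _)

lemma ne_right {u x w : ℝ × ℝ} (h : orient u x w ≠ 0) : w ≠ x := by
  rintro rfl; exact h (orient_self_right _ _)

lemma tau_pos_iff {u x w : ℝ × ℝ} (h : orient u x w ≠ 0) : 0 < tau u x w ↔ 0 < orient u x w := by
  have hn := normSq_pos (ne_left h)
  have h1 : 0 < ((cx w - cx x) / (cx x - cx u)).im ↔ 0 < orient u x w := by
    rw [tau_im, div_pos_iff_of_pos_right hn]
  rw [← h1]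
  unfold tau
  constructor
  · intro h2
    by_contra h3
    rcases lt_or_eq_of_le (not_lt.1 h3) with h4 | h4
    · have := Complex.arg_neg_iff.2 h4
      linarith
    · rw [tau_im, div_eq_zero_iff] at h4
      rcases h4 with h4 | h4
      · exact h h4
      · exact hn.ne' h4
  · intro h2
    have h3 := Complex.arg_nonneg_iff.2 h2.le
    rcases lt_or_eq_of_le h3 with h4 | h4
    · exact h4
    · have := (Complex.arg_eq_zero_iff.1 h4.symm).2
      linarith

lemma tau_neg_iff {u x w : ℝ × ℝ} (h : orient u x w ≠ 0) : tau u x w < 0 ↔ orient u x w < 0 := by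
  have hn := normSq_pos (ne_left h)
  unfold tau
  rw [Complex.arg_neg_iff, tau_im, div_neg_iff]
  constructor
  · rintro (⟨_, h2⟩ | ⟨h1, _⟩)
    · linarith
    · exact h1
  · intro h1; exact Or.inr ⟨h1, hn⟩

lemma tau_lt_pi {u x w : ℝ × ℝ} (h : orient u x w ≠ 0) : tau u x w < π := by
  rcases lt_or_eq_of_le (Complex.arg_le_pi ((cx w - cx x) / (cx x - cx u))) with h1 | h1
  · exact h1
  · exfalso
    have h2 := (Complex.arg_eq_pi_iff.1 h1).2
    rw [tau_im, div_eq_zero_iff] at h2
    rcases h2 with h4 | h4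
    · exact h h4
    · exact (normSq_pos (ne_left h)).ne' h4

lemma neg_pi_lt_tau (u x w : ℝ × ℝ) : -π < tau u x w := Complex.neg_pi_lt_arg _

/-- the unit vector of the turning angle -/
lemma exp_tau {u x w : ℝ × ℝ} (h1 : x ≠ u) (h2 : w ≠ x) :
    ∃ r : ℝ, 0 < r ∧ (cx w - cx x) = r * Complex.exp (tau u x w * Complex.I) * (cx x - cx u) := by
  refine ⟨‖(cx w - cx x) / (cx x - cx u)‖, ?_, ?_⟩
  · rw [norm_pos_iff]
    exact div_ne_zero (cx_sub_ne h2) (cx_sub_ne h1)
  · unfold tau
    rw [Complex.norm_mul_exp_arg_mul_I, div_mul_cancel₀ _ (cx_sub_ne h1)]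

/-- turning angles at a vertex at which the polygon is cut -/
lemma tau_split {u x w z : ℝ × ℝ} (h0 : orient u x w ≠ 0) (h1 : orient z x w ≠ 0)
    (h2 : orient u x z ≠ 0) (hz : lsV u x w z) :
    tau z x w + tau u x z = tau u x w + π := by
  obtain ⟨r0, hr0, e0⟩ := exp_tau (ne_left h0) (ne_right h0)
  obtain ⟨r1, hr1, e1⟩ := exp_tau (ne_left h1) (ne_right h1)
  obtain ⟨r2, hr2, e2⟩ := exp_tau (ne_left h2) (ne_right h2)
  -- exp (i (t1 + t2 - t0 - π)) = positive real
  have hx : cx x - cx u ≠ 0 := cx_sub_ne (ne_left h0)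
  have hz' : cx z - cx x ≠ 0 := cx_sub_ne (ne_right h2)
  have key : Complex.exp ((tau z x w + tau u x z - tau u x w - π : ℝ) * Complex.I) = 1 := by
    have h3 : (r0 : ℂ) * Complex.exp (tau u x w * Complex.I) =
        - (r1 * r2) * (Complex.exp (tau z x w * Complex.I) * Complex.exp (tau u x z * Complex.I)) := by
      apply mul_right_cancel₀ hx
      rw [← e0]
      calc cx w - cx x = r1 * Complex.exp (tau z x w * Complex.I) * (cx x - cx z) := e1
        _ = - (r1 * Complex.exp (tau z x w * Complex.I)) * (cx z - cx x) := by ring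
        _ = - (r1 * Complex.exp (tau z x w * Complex.I)) *
            (r2 * Complex.exp (tau u x z * Complex.I) * (cx x - cx u)) := by rw [← e2]
        _ = _ := by ring
    have h4 : Complex.exp ((tau z x w + tau u x z - tau u x w - π : ℝ) * Complex.I) =
        ((r0 / (r1 * r2) : ℝ) : ℂ) := by
      have h5 : ((tau z x w + tau u x z - tau u x w - π : ℝ) * Complex.I : ℂ) =
          tau z x w * Complex.I + tau u x z * Complex.I - tau u x w * Complex.I - π * Complex.I := by
        push_cast; ring
      rw [h5, Complex.exp_sub, Complex.exp_sub, Complex.exp_add, Complex.exp_pi_mul_I]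
      have hne := Complex.exp_ne_zero (tau u x w * Complex.I)
      have hr1' : (r1 : ℂ) ≠ 0 := by exact_mod_cast hr1.ne'
      have hr2' : (r2 : ℂ) ≠ 0 := by exact_mod_cast hr2.ne'
      push_cast
      rw [div_eq_div_iff (by norm_num) (mul_ne_zero hr1' hr2'), div_mul_eq_mul_div,
        div_eq_iff hne]
      linear_combination h3
    have h6 : r0 / (r1 * r2) = 1 := by
      have h7 := congrArg norm h4
      rw [Complex.norm_exp_ofReal_mul_I, Complex.norm_real, Real.norm_eq_abs, abs_of_pos (by positivity)] at h7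
      exact h7.symm
    rw [h4, h6]; simp
  rw [Complex.exp_eq_one_iff] at key
  obtain ⟨k, hk⟩ := key
  have hk' : tau z x w + tau u x z - tau u x w - π = k * (2 * π) := by
    have h3 : ((tau z x w + tau u x z - tau u x w - π : ℝ) : ℂ) * Complex.I =
        ((k * (2 * π) : ℝ) : ℂ) * Complex.I := by
      rw [hk]; push_cast; ring
    have h4 := mul_right_cancel₀ Complex.I_ne_zero h3
    exact_mod_cast h4
  have a0 := tau_lt_pi h0
  have a1 := tau_lt_pi h1
  have a2 := tau_lt_pi h2
  have b0 := neg_pi_lt_tau u x w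
  have b1 := neg_pi_lt_tau z x w
  have b2 := neg_pi_lt_tau u x z
  have hpi := Real.pi_pos
  have hor : orient x w z = orient z x w := orient_cyc z x w
  have k1 : (k : ℝ) < 1 := by
    have : (k : ℝ) * (2 * π) < 2 * π := by rw [← hk']; linarith
    by_contra hcon
    nlinarith
  have k2 : -1 < (k : ℝ) := by
    by_contra hcon
    have h3 : (k : ℝ) * (2 * π) ≤ - (2 * π) := by nlinarith
    rw [← hk'] at h3
    rcases hz with ⟨c1, c2, c3⟩ | ⟨c1, c2⟩
    · rw [hor] at c3
      have d1 := (tau_pos_iff h1).2 c3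
      have d2 := (tau_pos_iff h2).2 c2
      linarith
    · have d0 := (tau_neg_iff h0).2 c1
      rcases c2 with c2 | c2
      · have d2 := (tau_pos_iff h2).2 c2
        linarith
      · rw [hor] at c2
        have d1 := (tau_pos_iff h1).2 c2
        linarith
  have k3 : k = 0 := by
    have h3 : k < 1 := by exact_mod_cast k1
    have h4 : -1 < k := by exact_mod_cast k2
    omega
  rw [k3] at hk'
  push_cast at hk'
  linarith

/-- a triangle turns by `2 π` -/
lemma tau_triangle {a b c : ℝ × ℝ} (h : 0 < orient a b c) :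
    tau a b c + tau b c a + tau c a b = 2 * π := by
  have o0 : orient a b c ≠ 0 := h.ne'
  have h1' : 0 < orient b c a := by rw [orient_cyc]; exact h
  have h2' : 0 < orient c a b := by rw [orient_cyc, orient_cyc]; exact h
  have o1 := h1'.ne'
  have o2 := h2'.ne'
  obtain ⟨r0, hr0, e0⟩ := exp_tau (ne_left o0) (ne_right o0)
  obtain ⟨r1, hr1, e1⟩ := exp_tau (ne_left o1) (ne_right o1)
  obtain ⟨r2, hr2, e2⟩ := exp_tau (ne_left o2) (ne_right o2)
  have hx : cx b - cx a ≠ 0 := cx_sub_ne (ne_left o0)
  have key : Complex.exp ((tau a b c + tau b c a + tau c a b : ℝ) * Complex.I) = 1 := by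
    have h3 : (1 : ℂ) = (r0 * r1 * r2) * (Complex.exp (tau a b c * Complex.I) *
        Complex.exp (tau b c a * Complex.I) * Complex.exp (tau c a b * Complex.I)) := by
      apply mul_right_cancel₀ hx
      calc 1 * (cx b - cx a) = cx b - cx a := one_mul _
        _ = r2 * Complex.exp (tau c a b * Complex.I) * (cx a - cx c) := e2
        _ = r2 * Complex.exp (tau c a b * Complex.I) *
            (r1 * Complex.exp (tau b c a * Complex.I) * (cx c - cx b)) := by rw [← e1]
        _ = r2 * Complex.exp (tau c a b * Complex.I) *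
            (r1 * Complex.exp (tau b c a * Complex.I) *
              (r0 * Complex.exp (tau a b c * Complex.I) * (cx b - cx a))) := by rw [← e0]
        _ = _ := by ring
    have h5 : ((tau a b c + tau b c a + tau c a b : ℝ) * Complex.I : ℂ) =
          tau a b c * Complex.I + tau b c a * Complex.I + tau c a b * Complex.I := by
      push_cast; ring
    have h6 : r0 * r1 * r2 = 1 := by
      have h7 := congrArg norm h3
      simp only [norm_mul, Complex.norm_exp_ofReal_mul_I, norm_one, mul_one, Complex.norm_real,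
        Real.norm_eq_abs, abs_of_pos hr0, abs_of_pos hr1, abs_of_pos hr2] at h7
      exact h7.symm
    rw [h5, Complex.exp_add, Complex.exp_add]
    have h7 : ((r0 : ℂ) * r1 * r2) = 1 := by exact_mod_cast h6
    rw [h7, one_mul] at h3
    exact h3.symm
  rw [Complex.exp_eq_one_iff] at key
  obtain ⟨k, hk⟩ := key
  have hk' : tau a b c + tau b c a + tau c a b = k * (2 * π) := by
    have h3 : ((tau a b c + tau b c a + tau c a b : ℝ) : ℂ) * Complex.I =
        ((k * (2 * π) : ℝ) : ℂ) * Complex.I := by
      rw [hk]; push_cast; ring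
    have h4 := mul_right_cancel₀ Complex.I_ne_zero h3
    exact_mod_cast h4
  have a0 := tau_lt_pi o0
  have a1 := tau_lt_pi o1
  have a2 := tau_lt_pi o2
  have b0 := (tau_pos_iff o0).2 h
  have b1 := (tau_pos_iff o1).2 h1'
  have b2 := (tau_pos_iff o2).2 h2'
  have hpi := Real.pi_pos
  have k1 : (k : ℝ) < 2 := by
    by_contra hcon
    nlinarith
  have k2 : 0 < (k : ℝ) := by
    by_contra hcon
    nlinarith
  have k3 : k = 1 := by
    have h3 : k < 2 := by exact_mod_cast k1
    have h4 : 0 < k := by exact_mod_cast k2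
    omega
  rw [k3] at hk'
  push_cast at hk'
  linarith

end Pool.Agent.H75.FL
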