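import Pool.Agent.H75.FL.Tau

/-!
The sum of the turning angles of a simple counterclockwise polygon is `2 π`.
-/

set_option autoImplicit false

namespace Pool.Agent.H75.FL

open Set Filter Topology Pool.Agent.H54.Fl Pool.Agent.H75.PolyJ
open scoped Real

/-- the turning angle at the vertex `i` -/
noncomputable def turn (n : ℕ) (v : ℕ → ℝ × ℝ) (i : ℕ) : ℝ := tau (v (pv n i)) (v i) (v (nx n i))

lemma lsV_ray {u x w z : ℝ × ℝ} {t : ℝ} (ht : 0 < t) :
    lsV u x w (x + t • (z - x)) ↔ lsV u x w z := by
  have e1 : orient u x (x + t • (z - x)) = t * orient u x z := by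
    unfold orient; simp only [Prod.fst_add, Prod.snd_add, Prod.smul_fst, Prod.smul_snd,
      Prod.fst_sub, Prod.snd_sub, smul_eq_mul]; ring
  have e2 : orient x w (x + t • (z - x)) = t * orient x w z := by
    unfold orient; simp only [Prod.fst_add, Prod.snd_add, Prod.smul_fst, Prod.smul_snd,
      Prod.fst_sub, Prod.snd_sub, smul_eq_mul]; ring
  unfold lsV
  rw [e1, e2, mul_pos_iff_of_pos_left ht, mul_pos_iff_of_pos_left ht]

/-- the direction of a segment which starts in the interior lies in the sector of the vertex -/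
lemma lsV_of_inner {n : ℕ} {v : ℕ → ℝ × ℝ} (h : IsSimplePolygon n v) (hc : CCW n v) {i : ℕ}
    (hi : i < n) {z : ℝ × ℝ} (hz : z ≠ v i)
    (hs : ∀ p ∈ segment ℝ (v i) z, p ≠ v i → p ≠ z → p ∈ inner n v) :
    lsV (v (pv n i)) (v i) (v (nx n i)) z := by
  have h1 := region_loc h hc ⟨i, hi, left_mem_segment ℝ _ _⟩ (IsLoc.V i hi rfl)
  have hcont : Tendsto (fun t : ℝ => v i + t • (z - v i)) (𝓝[>] 0) (𝓝 (v i)) := by
    have : Continuous (fun t : ℝ => v i + t • (z - v i)) := by fun_prop
    have h2 := this.tendsto 0
    simp only [zero_smul, add_zero] at h2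
    exact h2.mono_left nhdsWithin_le_nhds
  have h3 := hcont.eventually h1
  have h4 : ∀ᶠ t : ℝ in 𝓝[>] 0, t ∈ Ioo (0 : ℝ) 1 := Ioo_mem_nhdsGT one_pos
  obtain ⟨t, ht1, ht2⟩ := (h3.and h4).exists
  rw [← lsV_ray ht2.1]
  apply ht1.2.1
  have hzne : z - v i ≠ 0 := sub_ne_zero.2 hz
  apply hs
  · rw [segment_eq_image']
    exact ⟨t, ⟨ht2.1.le, ht2.2.le⟩, rfl⟩
  · intro he
    have : t • (z - v i) = 0 := by simpa using he
    rcases smul_eq_zero.1 this with h5 | h5
    · exact ht2.1.ne' h5
    · exact hzne h5
  · intro he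
    have h6 : (1 - t) • (z - v i) = 0 := by
      rw [sub_smul, one_smul]
      rw [← sub_eq_zero] at he
      have : (z - v i) - t • (z - v i) = - (v i + t • (z - v i) - z) := by abel
      rw [this, he, neg_zero]
    rcases smul_eq_zero.1 h6 with h5 | h5
    · linarith [ht2.2]
    · exact hzne h5

/-- the sum of the turning angles under a split -/
theorem turn_split {n j : ℕ} {v : ℕ → ℝ × ℝ} (h : IsSimplePolygon n v) (hc : CCW n v)
    (s : Split n v j) :
    ∑ i ∈ Finset.range n, turn n v i + 2 * π = ∑ i ∈ Finset.range (j + 1), turn (j + 1) v i +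
      ∑ i ∈ Finset.range (n - j + 1), turn (n - j + 1) (sh n v j) i := by
  have h2 := s.two_le
  have hn := s.le_n
  have hj : j < n := by omega
  have h0n : 0 < n := by omega
  have ne0 : v 0 ≠ v j := fun he => by
    have := vertex_inj h h0n hj he; omega
  have pv0 : pv n 0 = n - 1 := by rcases pv_cases h0n with h | h <;> omega
  have nx0 : nx n 0 = 1 := by rcases nx_cases h0n with h | h <;> omega
  have pvj : pv n j = j - 1 := by rcases pv_cases hj with h | h <;> omega
  have nxj : nx n j = j + 1 := by rcases nx_cases hj with h | h <;> omega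
  -- sectors
  have l0 : lsV (v (n - 1)) (v 0) (v 1) (v j) := by
    have := lsV_of_inner h hc h0n ne0.symm s.diag
    rwa [pv0, nx0] at this
  have lj : lsV (v (j - 1)) (v j) (v (j + 1)) (v 0) := by
    have := lsV_of_inner h hc hj ne0 (fun p hp h1 h2 => s.diag p (by rwa [segment_symm]) h2 h1)
    rwa [pvj, nxj] at this
  have g0 : orient (v (n - 1)) (v 0) (v 1) ≠ 0 := by
    have := gen' h h0n
    rwa [pv0, nx0] at this
  have gj : orient (v (j - 1)) (v j) (v (j + 1)) ≠ 0 := by
    have := gen' h hj
    rwa [pvj, nxj] at this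
  have t0 := tau_split g0 s.gen1 s.gen4 l0
  have tj := tau_split gj s.gen3 s.gen2 lj
  -- first part
  have a1 : ∑ i ∈ Finset.range (j + 1), turn (j + 1) v i =
      tau (v j) (v 0) (v 1) + ∑ i ∈ Finset.Ico 1 j, turn n v i + tau (v (j - 1)) (v j) (v 0) := by
    rw [Finset.sum_range_succ, Finset.range_eq_Ico, Finset.sum_eq_sum_Ico_succ_bot (by omega)]
    have b1 : turn (j + 1) v 0 = tau (v j) (v 0) (v 1) := by
      unfold turn
      have c1 : pv (j + 1) 0 = j := by rcases pv_cases (show 0 < j + 1 by omega) with h | h <;> omega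
      have c2 : nx (j + 1) 0 = 1 := by rcases nx_cases (show 0 < j + 1 by omega) with h | h <;> omega
      rw [c1, c2]
    have b2 : turn (j + 1) v j = tau (v (j - 1)) (v j) (v 0) := by
      unfold turn
      have c1 : pv (j + 1) j = j - 1 := by rcases pv_cases (show j < j + 1 by omega) with h | h <;> omega
      have c2 : nx (j + 1) j = 0 := by rcases nx_cases (show j < j + 1 by omega) with h | h <;> omega
      rw [c1, c2]
    rw [b1, b2]
    congr 2
    apply Finset.sum_congr rfl
    intro i hi
    rw [Finset.mem_Ico] at hi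
    unfold turn
    have c1 : pv (j + 1) i = i - 1 := by rcases pv_cases (show i < j + 1 by omega) with h | h <;> omega
    have c2 : nx (j + 1) i = i + 1 := by rcases nx_cases (show i < j + 1 by omega) with h | h <;> omega
    have c3 : pv n i = i - 1 := by rcases pv_cases (show i < n by omega) with h | h <;> omega
    have c4 : nx n i = i + 1 := by rcases nx_cases (show i < n by omega) with h | h <;> omega
    rw [c1, c2, c3, c4]
  -- second part
  have a2 : ∑ i ∈ Finset.range (n - j + 1), turn (n - j + 1) (sh n v j) i =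
      tau (v 0) (v j) (v (j + 1)) + ∑ i ∈ Finset.Ico (j + 1) n, turn n v i +
        tau (v (n - 1)) (v 0) (v j) := by
    rw [Finset.sum_range_succ, Finset.range_eq_Ico, Finset.sum_eq_sum_Ico_succ_bot (by omega)]
    have b1 : turn (n - j + 1) (sh n v j) 0 = tau (v 0) (v j) (v (j + 1)) := by
      unfold turn
      have c1 : pv (n - j + 1) 0 = n - j := by
        rcases pv_cases (show 0 < n - j + 1 by omega) with h | h <;> omega
      have c2 : nx (n - j + 1) 0 = 1 := by
        rcases nx_cases (show 0 < n - j + 1 by omega) with h | h <;> omega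
      rw [c1, c2, sh_wrap hj, sh_at (by omega), sh_at (by omega), add_zero]
    have b2 : turn (n - j + 1) (sh n v j) (n - j) = tau (v (n - 1)) (v 0) (v j) := by
      unfold turn
      have c1 : pv (n - j + 1) (n - j) = n - j - 1 := by
        rcases pv_cases (show n - j < n - j + 1 by omega) with h | h <;> omega
      have c2 : nx (n - j + 1) (n - j) = 0 := by
        rcases nx_cases (show n - j < n - j + 1 by omega) with h | h <;> omega
      rw [c1, c2, sh_wrap hj, sh_at (by omega), sh_at (by omega), add_zero]
      congr 2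
      omega
    rw [b1, b2]
    congr 2
    rw [Finset.sum_Ico_eq_sum_range, Finset.sum_Ico_eq_sum_range]
    have c0 : n - j - (0 + 1) = n - (j + 1) := by omega
    rw [c0]
    apply Finset.sum_congr rfl
    intro i hi
    rw [Finset.mem_range] at hi
    unfold turn
    have c1 : pv (n - j + 1) (0 + 1 + i) = i := by
      rcases pv_cases (show 0 + 1 + i < n - j + 1 by omega) with h | h <;> omega
    have c2 : nx (n - j + 1) (0 + 1 + i) = i + 2 := by
      rcases nx_cases (show 0 + 1 + i < n - j + 1 by omega) with h | h <;> omega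
    have c3 : pv n (j + 1 + i) = j + i := by
      rcases pv_cases (show j + 1 + i < n by omega) with h | h <;> omega
    rw [c1, c2, c3, sh_at (by omega), sh_at (by omega)]
    have c5 : j + (0 + 1 + i) = j + 1 + i := by omega
    rw [c5]
    congr 1
    by_cases hlast : j + 1 + i = n - 1
    · have c6 : nx n (j + 1 + i) = 0 := by
        rcases nx_cases (show j + 1 + i < n by omega) with h | h <;> omega
      have c7 : i + 2 = n - j := by omega
      rw [c6, c7, sh_wrap hj]
    · have c6 : nx n (j + 1 + i) = j + 1 + i + 1 := by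
        rcases nx_cases (show j + 1 + i < n by omega) with h | h <;> omega
      rw [c6, sh_at (by omega)]
      congr 1
      omega
  -- the whole sum
  have a3 : ∑ i ∈ Finset.range n, turn n v i = tau (v (n - 1)) (v 0) (v 1) +
      ∑ i ∈ Finset.Ico 1 j, turn n v i + tau (v (j - 1)) (v j) (v (j + 1)) +
        ∑ i ∈ Finset.Ico (j + 1) n, turn n v i := by
    rw [Finset.range_eq_Ico, Finset.sum_eq_sum_Ico_succ_bot (by omega),
      ← Finset.sum_Ico_consecutive _ (show 0 + 1 ≤ j by omega) (show j ≤ n by omega),
      Finset.sum_eq_sum_Ico_succ_bot (show j < n by omega)]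
    have b1 : turn n v 0 = tau (v (n - 1)) (v 0) (v 1) := by
      unfold turn; rw [pv0, nx0]
    have b2 : turn n v j = tau (v (j - 1)) (v j) (v (j + 1)) := by
      unfold turn; rw [pvj, nxj]
    rw [b1, b2]
    ring
  rw [a1, a2, a3]
  linarith

/-- the sum does not change under a cyclic shift -/
lemma turn_sh {n : ℕ} (v : ℕ → ℝ × ℝ) (s : ℕ) :
    ∑ i ∈ Finset.range n, turn n (sh n v s) i = ∑ i ∈ Finset.range n, turn n v i := by
  have h1 : ∀ i < n, turn n (sh n v s) i = turn n v ((s + i) % n) := by
    intro i hi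
    unfold turn sh
    have e1 : (s + pv n i) % n = pv n ((s + i) % n) := by
      unfold pv
      rw [Nat.mod_add_mod, Nat.add_mod_mod, add_assoc]
    have e2 : (s + nx n i) % n = nx n ((s + i) % n) := by
      unfold nx
      rw [Nat.mod_add_mod, Nat.add_mod_mod, add_assoc]
    rw [e1, e2]
  rw [Finset.sum_congr rfl (fun i hi => h1 i (Finset.mem_range.1 hi))]
  induction s with
  | zero =>
    apply Finset.sum_congr rfl
    intro i hi
    rw [zero_add, Nat.mod_eq_of_lt (Finset.mem_range.1 hi)]
  | succ s ih =>
    have h2 : ∀ i, (s + 1 + i) % n = (s + (i + 1) % n) % n := by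
      intro i
      rw [Nat.add_mod_mod]; congr 1; ring
    rw [Finset.sum_congr rfl (fun i _ => by rw [h2])]
    rw [sum_mod_eq n (fun k => turn n v ((s + k) % n))]
    exact ih (fun i hi => by
      unfold turn sh
      have e1 : (s + pv n i) % n = pv n ((s + i) % n) := by
        unfold pv
        rw [Nat.mod_add_mod, Nat.add_mod_mod, add_assoc]
      have e2 : (s + nx n i) % n = nx n ((s + i) % n) := by
        unfold nx
        rw [Nat.mod_add_mod, Nat.add_mod_mod, add_assoc]
      rw [e1, e2])

end Pool.Agent.H75.FL
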